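import Pool.Agent.P.MP_825e45_al.SxEx3

/-! The representation attached to the colors of even spherical type is symplectic. -/

namespace Pool.Agent.Results.MP_825e45_al.Symplectic

open Pool.Agent.SX

theorem result {ι M N κ L A S : Type} [Fintype ι] [Finite κ] [AddCommGroup M] [AddCommGroup N]
    [AddCommGroup L] [Module.Finite ℤ M] [Module.Finite ℤ N] [Module.Finite ℤ L]
    (P : RootDatum ι M N) [P.IsReduced] (b : P.Base)
    [CommRing A] [IsDomain A] [IsIntegrallyClosed A] [Algebra ℂ A] [Algebra.FiniteType ℂ A]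
    (R : Rep P b A) (hact : R.Acts) (hsph : R.MultFree)
    (Q : RootDatum κ R.lat L) [Q.IsReduced] (c : Q.Base) (hQ : R.SphRoots Q c)
    [AddCommGroup S] [Module ℂ S] [FiniteDimensional ℂ S] (T : Rep Q.flip c.flip S)
    (hS : T.MultFree) (hw : ∀ l, (∃ v, T.HW l v) ↔ l ∈ DomMax c.flip (R.Colors Q)) :
    ∃ B : LinearMap.BilinForm ℂ S, T.Symplectic B := by
  have h : Ctx R := ⟨hact, hsph⟩
  have : IsNoetherianRing A := Algebra.FiniteType.isNoetherianRing ℂ A
  obtain ⟨X⟩ := h.lift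
  exact h.main (h.tailRoots hQ) X.ext (R.Colors Q)
    (fun v ⟨i, p, h1, h2⟩ => ⟨{i}, h.even_of_T h1, i, rfl, p, h2⟩)
    (fun v hv => h.even_cases hQ hv) T hS hw

/-- All hypotheses of `result` hold together, with two colors of even spherical type; the
witness is `GL2 × Gm` acting on two by two matrices, with a module of dimension four. -/
theorem hypotheses_hold : ∃ (ι M N κ L A S : Type) (_ : Fintype ι) (_ : Finite κ)
    (_ : AddCommGroup M) (_ : AddCommGroup N) (_ : AddCommGroup L) (_ : Module.Finite ℤ M)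
    (_ : Module.Finite ℤ N) (_ : Module.Finite ℤ L) (P : RootDatum ι M N) (_ : P.IsReduced)
    (b : P.Base) (_ : CommRing A) (_ : IsDomain A) (_ : IsIntegrallyClosed A) (_ : Algebra ℂ A)
    (_ : Algebra.FiniteType ℂ A) (R : Rep P b A) (Q : RootDatum κ R.lat L) (_ : Q.IsReduced)
    (c : Q.Base) (_ : AddCommGroup S) (_ : Module ℂ S) (_ : FiniteDimensional ℂ S)
    (T : Rep Q.flip c.flip S), R.Acts ∧ R.MultFree ∧ R.SphRoots Q c ∧ T.MultFree ∧
      (∀ l, (∃ v, T.HW l v) ↔ l ∈ DomMax c.flip (R.Colors Q)) ∧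
      ∃ u v, u ≠ v ∧ R.Colors Q = {u, v} ∧ DomMax c.flip (R.Colors Q) = {u, v} :=
  ⟨Bool, _, _, Bool, _, MvPolynomial (Fin 4) ℂ, Fin 4 → ℂ, inferInstance, inferInstance, _, _, _,
    inferInstance, inferInstance, inferInstance, Ex.PP, inferInstance, Ex.bb, _, inferInstance,
    inferInstance, _, inferInstance, Ex.RR, Ex.QQ, inferInstance, Ex.cc, _, _, inferInstance,
    Ex.TT, Ex.acts, Ex.ctx.mf, Ex.sph, Ex.tmf, Ex.tw, _, _, Ex.vne, Ex.colors,
    Ex.colors ▸ Ex.domMax⟩

end Pool.Agent.Results.MP_825e45_al.Symplectic
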